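import Pool.Agent.H13.Z12.Defs
import Pool.Agent.H28.Z12.Gen
set_option autoImplicit false
set_option maxRecDepth 1000000
namespace Pool.Agent.H13.Z12.T
def A0_bt : Nat := nat_lit 0x3effe0100103e0103dffd0100203d01037ffb0102fffb0102003b0101fffb0101003b0100803b0103bff70100403701000800f9000400f9000200f9000100f9000080f9000000f903ff80f500000002001590130005901300149013000490130013901300039013001290130002901300119013000190130010901300009013001580130005801300148013000480130013801300038013001280130002801300118013000180130010801300008013001570130005701300147013000470130013701300037013001270130002701300117013000170130010701300007013001560130005601300146013000460130013601300036013001260130002601300116013000160130010601300006013000b1003000a100300091003000810030007100300061003000b0003000a000300090003000800030007000300060003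
def A0_off : Nat := nat_lit 0x500004c0004800044000400003c0003800034000300002c0002800024000200001c0001800014000100000c0000800004000000
def A0_lits : Nat := nat_lit 0x7f01fc07f01fc00180060018006001018082020808202001804201080420100180220088022008018012004801200401800a002800a00201800200080020000120f483d20f483d0110f443d10f443d0108f423d08f423d0104f413d04f413d0102f40bd02f40bd0101f407d01f407d0160f983e60f983e0150f943e50f943e0148f923e48f923e0144f913e44f913e0142f90be42f90be0141f907e41f907e01
def A0_hs : Nat := nat_lit 0x9c01f0060019006c016005402800a802c00b803000c803400d803800e803c00f804001080440118048012804c013805001480540158056080074026006401b0070016004c02800a802c00b803000c803400d803800e803c00f804001080440118048012804c013805001480540158056080090024009002401007401d007401d01007401d007401d01007401d007401d01007401d007401d01007401d007401d01007401d007401d01013c04f013c04f01013c04f013c04f01013c04f013c04f01013c04f013c04f01013c04f013c04f01013c04f013c04f01013c04f013c04f01013c04f013c04f01013c04f013c04f01013c04f013c04f01013c04f013c04f01013c04f013c04f01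
def A_P : Nat := nat_lit 0xc0fc0fff03f
def A_N : Nat := nat_lit 0x0
def A_U : Nat := nat_lit 0x80000000000000000000000000000000000000000000000000000000000000000000000000000000000000000000000000000000000000000000000000000000000000000000000000000000000000000000000000000000000000000000000000000000000000000000000000000000000000000000000000000000000000000000000000000000000000000000000000000000000000000000000000000000000000000000000000000000000000000000000000000000000000000000000000000000000000000000000000000000000000000000000000000000000000000000000000000000000000000000000000000000000000000000000000000000000000000000000000000000000000000000000000000000000000000000000000000000000000000000000000000000000000000000000000000000000000000000000000000000000000000000000000000000000000000000000000000000000000000000000000000000000000000000000000000000000000000000000000000000000000000000000000000000000000000000000000000000000000000000000000000000000000000000000000000000000000000000000000000000000000000000000000000000000000000000000000000000000000000000000000000000000000000000000000000000000000000000000000000000000000000000000000000000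
def A0_V : Nat := nat_lit 0x0
def A0_coff : Nat := nat_lit 0x0
def A0_clits : Nat := nat_lit 0x0
def A0_ix : Nat := nat_lit 0x0
noncomputable def A0_ent : Nat → Nat := Pool.Agent.H13.Z12.ent3 (Pool.Agent.H28.Z12.gen A_P A_N) A0_bt (nat_lit 80) (nat_lit 0) (nat_lit 0) (nat_lit 0) A0_off A0_lits
theorem A0_chk : Pool.Agent.H13.Z12.blk A0_ent (nat_lit 21) (nat_lit 79) A0_hs A_U A0_V A0_coff A0_clits (nat_lit 1) A0_ix = true := by decide +kernel
end Pool.Agent.H13.Z12.T
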